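import Pool.Agent.KS6_5.FAD.Codim
import Pool.Agent.KS6_5.FAD.Complete
import Pool.Agent.KS6_5.FAD.Smooth
import Pool.Agent.KS6_5.FAD.Config

/-!
Every non-simplicial pointed rational cone of rank `r ≥ 3`, with one point of the line for each of
its facets, gives a flexible smooth affine variety of dimension `r + 1` with the algebraic density
property and without the algebraic overshear density property. Such varieties exist in every
dimension at least four.
-/

namespace Pool.Agent.Results.MP_591370_ag.EveryDimensionFromFour

open Pool.Agent.KS6_5.FAD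
open Pool.Agent.W485 (VF IsOvershear tangentSpace Flexible AlgebraicDensity OvershearDensity)

/-- `X` is the coordinate ring of a smooth irreducible affine variety all of whose tangent spaces
have dimension `d`, which is flexible and has the algebraic density property, but not the algebraic
overshear density property: the Lie algebra generated by the overshears even has infinite
codimension in the Lie algebra of all algebraic vector fields. -/
structure IsExample (d : ℕ) (X : Type) [CommRing X] [Algebra ℂ X] : Prop where
  domain : IsDomain X
  finiteType : Algebra.FiniteType ℂ X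
  smooth : Algebra.Smooth ℂ X
  dim : ∀ x : X →ₐ[ℂ] ℂ, Module.finrank ℂ (tangentSpace x) = d
  flexible : Flexible X
  density : AlgebraicDensity X
  not_overshear : ¬ OvershearDensity X
  codim : ¬ Module.Finite ℂ
    (VF X ⧸ (LieSubalgebra.lieSpan ℂ (VF X) {V | IsOvershear V}).toSubmodule)

/-- The example of a configuration. -/
theorem isExample_cone {r : ℕ} {I : Type} [Fintype I] (co : I → ((Fin r → ℤ) →+ ℤ)) (y : I → ℂ)
    (hr : 3 ≤ r) (hI : r < Fintype.card I) (hy : Function.Injective y)
    (hprim : ∀ i, ∃ u, co i u = 1)
    (hface : ∀ i, ∃ v, co i v = 0 ∧ ∀ j, j ≠ i → 0 < co j v)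
    (hsep : ∀ n, (∀ i, co i n = 0) → n = 0) : IsExample (r + 1) (CA co y) := by
  obtain ⟨K, rfl, rfl⟩ := exists_cfg co y hr hI hy hprim hface hsep
  have hs : Algebra.Smooth ℂ K.AA := smooth K
  exact { domain := inferInstance
          finiteType := by
            have := hs.finitePresentation
            infer_instance
          smooth := hs
          dim := fun x => finrank_tangentSpace x
          flexible := flexible K
          density := algebraicDensity K
          not_overshear := not_overshearDensity
          codim := overshear_codim K }

theorem result :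
    (∀ (r : ℕ) (I : Type) (_ : Fintype I) (co : I → ((Fin r → ℤ) →+ ℤ)) (y : I → ℂ),
      3 ≤ r → r < Fintype.card I → Function.Injective y →
      (∀ i, ∃ u, co i u = 1) →
      (∀ i, ∃ v, co i v = 0 ∧ ∀ j, j ≠ i → 0 < co j v) →
      (∀ n, (∀ i, co i n = 0) → n = 0) →
      IsExample (r + 1) (CA co y)) ∧
    (∀ d, 4 ≤ d → ∃ (X : Type) (_ : CommRing X) (_ : Algebra ℂ X), IsExample d X) := by
  refine ⟨fun r I _ co y h1 h2 h3 h4 h5 h6 => isExample_cone co y h1 h2 h3 h4 h5 h6, ?_⟩
  intro d hd
  obtain ⟨r, rfl⟩ : ∃ r, d = r + 1 := ⟨d - 1, by omega⟩
  have hr : 3 ≤ r := by omega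
  let a0 : Fin r := ⟨0, by omega⟩
  let a1 : Fin r := ⟨1, by omega⟩
  let a2 : Fin r := ⟨2, by omega⟩
  have h01 : a0 ≠ a1 := fun h => by simpa [a0, a1] using congrArg Fin.val h
  have h02 : a0 ≠ a2 := fun h => by simpa [a0, a2] using congrArg Fin.val h
  have h12 : a1 ≠ a2 := fun h => by simpa [a1, a2] using congrArg Fin.val h
  let ev : Fin r → ((Fin r → ℤ) →+ ℤ) := fun k => Pi.evalAddMonoidHom _ k
  let co : Option (Fin r) → ((Fin r → ℤ) →+ ℤ) := fun i => match i with
    | none => ev a0 + ev a1 - ev a2
    | some k => ev k
  let y : Option (Fin r) → ℂ := fun i => match i with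
    | none => -1
    | some k => ((k : ℕ) : ℂ)
  have hnone : ∀ n, co none n = n a0 + n a1 - n a2 := fun _ => rfl
  have hsome : ∀ k n, co (some k) n = n k := fun _ _ => rfl
  refine ⟨CA co y, inferInstance, inferInstance, isExample_cone co y hr ?_ ?_ ?_ ?_ ?_⟩
  · rw [Fintype.card_option, Fintype.card_fin]
    omega
  · have hne : ∀ k : Fin r, (-1 : ℂ) ≠ ((k : ℕ) : ℂ) := by
      intro k h
      have h1 : (((k : ℕ) + 1 : ℕ) : ℂ) = 0 := by
        push_cast
        rw [← h]
        ring
      exact Nat.cast_ne_zero.2 (Nat.succ_ne_zero (k : ℕ)) h1
    intro i j hij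
    cases i with
    | none =>
      cases j with
      | none => rfl
      | some k => exact absurd hij (hne k)
    | some k =>
      cases j with
      | none => exact absurd hij.symm (hne k)
      | some l =>
        have h1 : ((k : ℕ) : ℂ) = ((l : ℕ) : ℂ) := hij
        have h2 : (k : ℕ) = (l : ℕ) := by exact_mod_cast h1
        rw [Fin.ext h2]
  · intro i
    cases i with
    | none =>
      refine ⟨Pi.single a0 1, ?_⟩
      rw [hnone, Pi.single_eq_same, Pi.single_eq_of_ne h01.symm, Pi.single_eq_of_ne h02.symm]
      norm_num
    | some k => exact ⟨Pi.single k 1, by rw [hsome, Pi.single_eq_same]⟩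
  · intro i
    cases i with
    | none =>
      refine ⟨fun j => if j = a2 then 2 else 1, ?_, ?_⟩
      · rw [hnone, if_neg h02, if_neg h12, if_pos rfl]
        norm_num
      · intro j hj
        cases j with
        | none => exact absurd rfl hj
        | some k =>
          rw [hsome]
          split_ifs <;> norm_num
    | some k =>
      refine ⟨fun j => if j = k then 0 else if j = a0 ∨ j = a1 then 2 else 1, ?_, ?_⟩
      · rw [hsome, if_pos rfl]
      · intro j hj
        cases j with
        | none =>
          rw [hnone]
          have e2 : ¬ (a2 = a0 ∨ a2 = a1) := by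
            rintro (h | h)
            · exact h02 h.symm
            · exact h12 h.symm
          have e0 : (a0 = a0 ∨ a0 = a1) := Or.inl rfl
          have e1 : (a1 = a0 ∨ a1 = a1) := Or.inr rfl
          rw [if_neg e2, if_pos e0, if_pos e1]
          by_cases k0 : a0 = k
          · have k1 : a1 ≠ k := fun h => h01 (k0.trans h.symm)
            have k2 : a2 ≠ k := fun h => h02 (k0.trans h.symm)
            rw [if_pos k0, if_neg k1, if_neg k2]
            norm_num
          · rw [if_neg k0]
            by_cases k1 : a1 = k
            · have k2 : a2 ≠ k := fun h => h12 (k1.trans h.symm)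
              rw [if_pos k1, if_neg k2]
              norm_num
            · rw [if_neg k1]
              split_ifs <;> norm_num
        | some l =>
          have hlk : l ≠ k := fun h => hj (by rw [h])
          rw [hsome, if_neg hlk]
          split_ifs <;> norm_num
  · intro n hn
    funext k
    exact hn (some k)

end Pool.Agent.Results.MP_591370_ag.EveryDimensionFromFour
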